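import Pool.Agent.Helper75.PZ.Stmts2

/-! Row PH of the sheet `Helper75/PZ/Stmts2.lean`. -/

set_option autoImplicit false

universe u

open Module TensorProduct

namespace Pool.Agent.Helper78.PZ

open Pool.Agent.Helper75.PZ

theorem ph78_n2_add (a b : G2) : n2 (a + b) = n2 a + n2 b := rfl

theorem ph78_n2_zero : n2 0 = 0 := rfl

theorem ph78_sgn {M : Type u} [Field M] (k : ℤ) : (-1 : M) ^ k ≠ 0 :=
  zpow_ne_zero k (by simp)

/-- the twist as a function -/
noncomputable def ph78 {F M : Type u} [Field F] [Field M] [Algebra F M] (σ : M ≃ₐ[F] M)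
    (h : HS M) : HS M where
  coeff γ := (-1 : M) ^ (n2 γ) * σ (h.coeff γ)
  isPWO_support' := h.isPWO_support.mono (by
    intro γ hγ
    rw [HahnSeries.mem_support]
    intro h0
    apply hγ
    show (-1 : M) ^ (n2 γ) * σ (h.coeff γ) = 0
    rw [h0, map_zero, mul_zero])

theorem ph78_coeff {F M : Type u} [Field F] [Field M] [Algebra F M] (σ : M ≃ₐ[F] M)
    (h : HS M) (γ : G2) : (ph78 σ h).coeff γ = (-1 : M) ^ (n2 γ) * σ (h.coeff γ) := rfl

theorem ph78_supp {F M : Type u} [Field F] [Field M] [Algebra F M] (σ : M ≃ₐ[F] M)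
    (h : HS M) : (ph78 σ h).support = h.support := by
  ext γ
  rw [HahnSeries.mem_support, HahnSeries.mem_support, ph78_coeff]
  constructor
  · intro h1 h2
    rw [h2, map_zero, mul_zero] at h1
    exact h1 rfl
  · intro h1
    exact mul_ne_zero (ph78_sgn _) ((map_ne_zero_iff σ σ.injective).2 h1)

theorem ph78_mul {F M : Type u} [Field F] [Field M] [Algebra F M] (σ : M ≃ₐ[F] M)
    (x y : HS M) : ph78 σ (x * y) = ph78 σ x * ph78 σ y := by
  ext γ
  rw [ph78_coeff, HahnSeries.coeff_mul, HahnSeries.coeff_mul, map_sum, Finset.mul_sum]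
  refine Finset.sum_congr ?_ ?_
  · ext ij
    simp only [Finset.mem_antidiagonal, ph78_supp]
  · intro ij hij
    have h1 : ij.1 + ij.2 = γ := (Finset.mem_antidiagonal.1 hij).2.2
    rw [ph78_coeff, ph78_coeff, map_mul, ← h1, ph78_n2_add,
      zpow_add₀ (show (-1 : M) ≠ 0 by simp)]
    ring

/-- Row PH. -/
theorem st_PH : ST_PH.{u} := by
  intro F M _ _ _ σ
  refine ⟨{ toFun := ph78 σ
            map_one' := ?_
            map_mul' := ph78_mul σ
            map_zero' := ?_
            map_add' := ?_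
            commutes' := ?_ }, ?_⟩
  · ext γ
    rw [ph78_coeff, HahnSeries.coeff_one]
    by_cases hγ : γ = 0
    · subst hγ
      rw [if_pos rfl, map_one, ph78_n2_zero, zpow_zero, mul_one]
    · rw [if_neg hγ, map_zero, mul_zero]
  · ext γ
    rw [ph78_coeff, HahnSeries.coeff_zero, map_zero, mul_zero]
  · intro x y
    ext γ
    rw [HahnSeries.coeff_add, ph78_coeff, ph78_coeff, ph78_coeff, HahnSeries.coeff_add,
      map_add, mul_add]
  · intro r
    ext γ
    rw [ph78_coeff, HahnSeries.algebraMap_apply, HahnSeries.C_apply, HahnSeries.coeff_single]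
    by_cases hγ : γ = 0
    · subst hγ
      rw [if_pos rfl, ph78_n2_zero, zpow_zero, one_mul, AlgEquiv.commutes]
    · rw [if_neg hγ, map_zero, mul_zero]
  · intro h γ
    rfl

end Pool.Agent.Helper78.PZ
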